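import Pool.Agent.W951.BP.Asm

/-!
# The sum of the four ranges
-/

namespace Pool.Agent.W951.BP

open Finset

theorem an_of (h1 : S_AN1) (h2 : S_AN2) (h3 : S_AN3) (h4 : S_AN4) : S_AN := by
  intro k hk ε hε
  obtain ⟨ζ, hζ, h4⟩ := h4 k hk
  obtain ⟨r1, hr1⟩ := h1 k (by omega) (ε / 4) (by positivity)
  obtain ⟨r2, hr2⟩ := h2 k hk (ε / 4) (by positivity)
  obtain ⟨r3, hr3⟩ := h3 k hk ζ (ε / 4) hζ (by positivity)
  obtain ⟨r4, hr4⟩ := h4 (ε / 4) (by positivity)
  refine ⟨max (max r1 r2) (max r3 r4), fun r hr T hT => ?_⟩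
  have e1 : r1 ≤ r := (le_max_left _ _).trans ((le_max_left _ _).trans hr)
  have e2 : r2 ≤ r := (le_max_right _ _).trans ((le_max_left _ _).trans hr)
  have e3 : r3 ≤ r := (le_max_left _ _).trans ((le_max_right _ _).trans hr)
  have e4 : r4 ≤ r := (le_max_right _ _).trans ((le_max_right _ _).trans hr)
  obtain ⟨hT0, g1⟩ := hr1 r e1 T hT
  have g2 := hr2 r e2 T hT
  have g3 := hr3 r e3 T hT
  have g4 := hr4 r e4 T hT
  refine ⟨hT0, ?_⟩
  have hnn : ∀ s ∈ range T, 0 ≤ tm k r T s := by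
    intro s hs
    unfold tm
    have := qq_nonneg (v := 2 ^ r) (mem_range.1 hs).le
    have := pr_nonneg (T := T) (s := s) (v := 2 ^ r) Nat.one_le_two_pow
    positivity
  set P1 : ℕ → Prop := fun s => ((s : ℝ) / T) ^ 2 * 2 ^ r ≤ 1 with hP1
  set P2 : ℕ → Prop := fun s => 1 < ((s : ℝ) / T) ^ 2 * 2 ^ r ∧ (s : ℝ) / T ≤ 3 / 10 with hP2
  set P3 : ℕ → Prop := fun s => 3 / 10 < (s : ℝ) / T ∧ (s : ℝ) / T ≤ 1 - ζ with hP3
  set P4 : ℕ → Prop := fun s => 1 - ζ < (s : ℝ) / T with hP4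
  rw [sum_filter] at g1 g2 g3 g4
  have key : ∑ s ∈ range T, tm k r T s ≤
      ∑ s ∈ range T, ((if P1 s then tm k r T s else 0) + (if P2 s then tm k r T s else 0) +
        (if P3 s then tm k r T s else 0) + (if P4 s then tm k r T s else 0)) := by
    refine sum_le_sum fun s hs => ?_
    have h0 := hnn s hs
    have hi : ∀ (P : Prop) [Decidable P], 0 ≤ (if P then tm k r T s else 0) := by
      intro P _
      split_ifs
      · exact h0
      · exact le_rfl
    have i1 := hi (P1 s)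
    have i2 := hi (P2 s)
    have i3 := hi (P3 s)
    have i4 := hi (P4 s)
    by_cases c1 : P1 s
    · rw [if_pos c1]
      linarith
    · by_cases c2 : (s : ℝ) / T ≤ 3 / 10
      · have : P2 s := ⟨not_le.1 c1, c2⟩
        rw [if_pos this]
        linarith
      · by_cases c3 : (s : ℝ) / T ≤ 1 - ζ
        · have : P3 s := ⟨not_le.1 c2, c3⟩
          rw [if_pos this]
          linarith
        · have : P4 s := not_le.1 c3
          rw [if_pos this]
          linarith
  rw [sum_add_distrib, sum_add_distrib, sum_add_distrib] at key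
  show ∑ s ∈ range T, tm k r T s ≤ 1 + ε
  linarith

end Pool.Agent.W951.BP
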