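import Pool.Agent.W951.BP.Stm

/-!
# Assembly: average-case hardness of `k`-SAT for circuits with modular gates
-/

namespace Pool.Agent.W951.BP

open H746R3.Inv Finset Classical
open Pool.Agent.H596R2.D3 (Clause Satisfiable IsProj)

/-- Averaging: if most pairs are good there is a first component with many good partners. -/
theorem exists_fst {B U : Type} [Fintype B] [Fintype U] [Nonempty B] (P : B → U → Prop)
    [DecidablePred fun q : B × U => P q.1 q.2] [∀ b, DecidablePred (P b)] (c : ℝ)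
    (h : c * (Fintype.card B * Fintype.card U) ≤ ((univ.filter fun q : B × U => P q.1 q.2).card : ℝ)) :
    ∃ b, c * Fintype.card U ≤ ((univ.filter fun u => P b u).card : ℝ) := by
  by_contra hcon
  push Not at hcon
  have h1 : ((univ.filter fun q : B × U => P q.1 q.2).card : ℝ) =
      ∑ b : B, ((univ.filter fun u => P b u).card : ℝ) := by
    have : (univ.filter fun q : B × U => P q.1 q.2).card = ∑ b : B, (univ.filter fun u => P b u).card := by
      simp only [Finset.card_filter]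
      rw [Fintype.sum_prod_type]
    rw [this]
    push_cast
    rfl
  rw [h1] at h
  have h2 : ∑ b : B, ((univ.filter fun u => P b u).card : ℝ) < ∑ _b : B, c * Fintype.card U :=
    Finset.sum_lt_sum_of_nonempty univ_nonempty fun b _ => hcon b
  rw [Finset.sum_const, Finset.card_univ, nsmul_eq_mul] at h2
  linarith [h2, h, mul_comm c ((Fintype.card B : ℝ) * Fintype.card U)]

theorem pr_nonneg {T v s : ℕ} (hv : 1 ≤ v) : 0 ≤ pr T v s := by
  unfold pr
  have : (1 : ℝ) ≤ v := by exact_mod_cast hv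
  have h1 : (0 : ℝ) ≤ (v : ℝ) - 1 := by linarith
  positivity

theorem qq_nonneg {T v s : ℕ} (hs : s ≤ T) : 0 ≤ qq T v s := by
  unfold qq
  have h1 : (s : ℝ) / T ≤ 1 := by
    rcases Nat.eq_zero_or_pos T with h | h
    · subst h; simp
    · rw [div_le_one (by exact_mod_cast h)]
      exact_mod_cast hs
  have h0 : (0 : ℝ) ≤ (s : ℝ) / T := by positivity
  have h2 : ((s : ℝ) / T) ^ 2 ≤ 1 := pow_le_one₀ h0 h1
  have h3 : 0 ≤ 1 - ((s : ℝ) / T) ^ 2 := by linarith
  positivity

/-- The heavy case. -/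
theorem heavy (hM2 : S_M2) {k r T m : ℕ} {ε : ℝ} (hT : 0 < T) (hr : 0 < r) (hε : 0 < ε)
    (hAN : ∑ s ∈ range T, pr T (2 ^ r) s * (1 + qq T (2 ^ r) s ^ k) ^ (r * T) ≤ 1 + ε)
    (hm : 0 < m) (u : Fin m → Bool)
    (hu : (1 + 1 / (ε * (r * T : ℕ))) * m ≤ 2 * wt u) :
    ((univ.filter fun b : Fin (r * T) → Sc T (2 ^ r) k m => ¬ ∃ x, Ok u b x).card : ℝ) ≤
      2 * ε * Fintype.card (Fin (r * T) → Sc T (2 ^ r) k m) := by
  set M := r * T with hM
  have hMpos : 0 < M := Nat.mul_pos hr hT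
  have hMR : (0 : ℝ) < (M : ℝ) := by exact_mod_cast hMpos
  have hmR : (0 : ℝ) < (m : ℝ) := by exact_mod_cast hm
  set δ : ℝ := 1 / (ε * M) with hδ
  have hδ0 : 0 < δ := by positivity
  have hw0 : (0 : ℝ) < wt u := by
    have : 0 < (1 + δ) * (m : ℝ) := by positivity
    linarith
  have hw0' : 0 < wt u := by exact_mod_cast hw0
  have h2 := hM2 T (2 ^ r) k m M hT (by positivity) hm u hw0'
  refine h2.trans ?_
  apply mul_le_mul_of_nonneg_right _ (Nat.cast_nonneg _)
  have hratio : (m : ℝ) / wt u ≤ 2 / (1 + δ) := by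
    rw [div_le_div_iff₀ hw0 (by positivity)]
    linarith
  have hratio2 : (m : ℝ) / wt u ≤ 2 := by
    refine hratio.trans ?_
    rw [div_le_iff₀ (by positivity)]
    linarith
  have hwm : (wt u : ℝ) ≤ m := by
    have : wt u ≤ m := by
      unfold wt
      refine (card_le_univ _).trans ?_
      rw [Fintype.card_fin]
    exact_mod_cast this
  have hratio1 : 1 ≤ (m : ℝ) / wt u := by
    rw [le_div_iff₀ hw0]; linarith
  rw [sum_range_succ]
  have hlast : pr T (2 ^ r) T * (1 + ((m : ℝ) / wt u - 1) * qq T (2 ^ r) T ^ k) ^ M ≤ ε := by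
    have hq : qq T (2 ^ r) T = 1 := by
      unfold qq
      have : (T : ℝ) ≠ 0 := by exact_mod_cast hT.ne'
      rw [div_self this]
      simp
    have hp : pr T (2 ^ r) T = 1 / (2 : ℝ) ^ M := by
      unfold pr
      rw [Nat.choose_self, Nat.sub_self, pow_zero]
      push_cast
      rw [hM, pow_mul]
      ring
    rw [hq, hp, one_pow, mul_one]
    have e1 : 1 + ((m : ℝ) / wt u - 1) = (m : ℝ) / wt u := by ring
    rw [e1]
    have h3 : ((m : ℝ) / wt u) ^ M ≤ (2 / (1 + δ)) ^ M :=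
      pow_le_pow_left₀ (by positivity) hratio M
    have h4 : 1 / (2 : ℝ) ^ M * (2 / (1 + δ)) ^ M = 1 / (1 + δ) ^ M := by
      rw [div_pow]
      field_simp
    have h5 : 1 + (M : ℝ) * δ ≤ (1 + δ) ^ M := one_add_mul_le_pow (by linarith) M
    have h6 : (M : ℝ) * δ = 1 / ε := by
      rw [hδ]; field_simp
    calc 1 / (2 : ℝ) ^ M * ((m : ℝ) / wt u) ^ M ≤ 1 / (2 : ℝ) ^ M * (2 / (1 + δ)) ^ M :=
          mul_le_mul_of_nonneg_left h3 (by positivity)
      _ = 1 / (1 + δ) ^ M := h4
      _ ≤ 1 / (1 / ε) := by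
          apply one_div_le_one_div_of_le (by positivity)
          rw [h6] at h5
          linarith
      _ = ε := by rw [one_div_one_div]
  have hrest : ∑ s ∈ range T, pr T (2 ^ r) s * (1 + ((m : ℝ) / wt u - 1) * qq T (2 ^ r) s ^ k) ^ M ≤
      1 + ε := by
    refine le_trans (sum_le_sum fun s hs => ?_) hAN
    have hsT : s ≤ T := (mem_range.1 hs).le
    have hq := qq_nonneg (v := 2 ^ r) hsT
    apply mul_le_mul_of_nonneg_left _ (pr_nonneg (Nat.one_le_two_pow))
    apply pow_le_pow_left₀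
    · have : 0 ≤ (m : ℝ) / wt u - 1 := by linarith
      positivity
    · have h7 : ((m : ℝ) / wt u - 1) * qq T (2 ^ r) s ^ k ≤ 1 * qq T (2 ^ r) s ^ k :=
        mul_le_mul_of_nonneg_right (by linarith) (by positivity)
      linarith
  linarith

/-- The light case. -/
theorem light (hM1 : S_M1) {k r T m : ℕ} {ε : ℝ} (hT : 0 < T) (hr : 0 < r) (hε : 0 < ε)
    (hm : 0 < m) (u : Fin m → Bool)
    (hu : 2 * (wt u : ℝ) ≤ (1 - 1 / (ε * (r * T : ℕ))) * m) :
    ((univ.filter fun b : Fin (r * T) → Sc T (2 ^ r) k m => ∃ x, Ok u b x).card : ℝ) ≤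
      ε * Fintype.card (Fin (r * T) → Sc T (2 ^ r) k m) := by
  set M := r * T with hM
  have hMpos : 0 < M := Nat.mul_pos hr hT
  have hMR : (0 : ℝ) < (M : ℝ) := by exact_mod_cast hMpos
  have hmR : (0 : ℝ) < (m : ℝ) := by exact_mod_cast hm
  set δ : ℝ := 1 / (ε * M) with hδ
  have h2 := hM1 T (2 ^ r) k m M hT (by positivity) hm u
  refine h2.trans ?_
  apply mul_le_mul_of_nonneg_right _ (Nat.cast_nonneg _)
  have h3 : (((2 ^ r : ℕ) : ℝ)) ^ T * ((wt u : ℝ) / m) ^ M = (2 * wt u / m) ^ M := by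
    push_cast
    rw [← pow_mul, ← hM, ← mul_pow]
    congr 1
    ring
  rw [h3]
  have h4 : 2 * (wt u : ℝ) / m ≤ 1 - δ := by
    rw [div_le_iff₀ hmR]
    linarith
  have h0 : 0 ≤ 2 * (wt u : ℝ) / m := by positivity
  calc (2 * (wt u : ℝ) / m) ^ M ≤ (1 - δ) ^ M := pow_le_pow_left₀ h0 h4 M
    _ ≤ (Real.exp (-δ)) ^ M := by
        apply pow_le_pow_left₀ (h0.trans h4)
        have := Real.add_one_le_exp (-δ)
        linarith
    _ = Real.exp (-(1 / ε)) := by
        rw [← Real.exp_nat_mul]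
        congr 1
        rw [hδ]
        field_simp
    _ ≤ ε := by
        rw [Real.exp_neg, inv_le_comm₀ (Real.exp_pos _) hε]
        have := Real.add_one_le_exp (1 / ε)
        have h5 : ε⁻¹ = 1 / ε := (one_div ε).symm
        rw [h5]
        linarith

end Pool.Agent.W951.BP
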