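import Pool.Agent.H746R3.Inv.Circ
import Pool.Agent.H596R2.D3.Defs

/-!
# Circuits with modular gates and `k`-CNF-SAT

`H746R3.Inv.Circuit` are the circuits with unbounded fan-in AND, OR and MOD-`p` gates, negations
being free; `Pool.Agent.H596R2.D3.Clause n k` is the type of the clauses with at most `k` literals on
`n` variables and `Pool.Agent.H596R2.D3.Satisfiable z` says that the formula whose set of clauses has
the indicator vector `z` is satisfiable.
-/

namespace Pool.Agent.W951.BP

open H746R3.Inv

/-- The circuit outputs `true` on the input `x`. -/
def Accepts {I : Type} (p : ℕ) (C : Circuit I Unit) (x : I → Bool) : Prop :=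
  C.Computes p x fun _ => true

/-- The circuit has depth at most `h` and at most `s` gates, all of them AND, OR or MOD-`p`
gates. -/
def Small {I : Type} (h s : ℕ) (C : Circuit I Unit) : Prop :=
  C.DepthLE h ∧ (∀ g, ¬ (C.kind g).IsWild) ∧ C.G ≤ s

end Pool.Agent.W951.BP
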