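import Pool.Agent.W951.BP.Asm

/-!
# Average-case hardness of `k`-SAT for circuits with modular gates
-/

namespace Pool.Agent.W951.BP

open H746R3.Inv Finset Classical
open Pool.Agent.H596R2.D3 (Clause Satisfiable IsProj)

/-- the number of coins -/
theorem exists_coins {ε W : ℝ} (hW : max 2 (8 / ε) ≤ W) :
    ∃ j : ℕ, ((2 * j + 1 : ℕ) : ℝ) ≤ W ^ 2 ∧ W / 2 ≤ √((2 * j + 1 : ℕ) : ℝ) := by
  have hW2 : 2 ≤ W := (le_max_left _ _).trans hW
  refine ⟨⌊(W ^ 2 - 1) / 2⌋₊, ?_, ?_⟩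
  · have h0 : 0 ≤ (W ^ 2 - 1) / 2 := by nlinarith
    have h1 := Nat.floor_le h0
    push_cast
    linarith
  · have h1 := Nat.lt_floor_add_one ((W ^ 2 - 1) / 2)
    apply Real.le_sqrt_of_sq_le
    push_cast
    nlinarith

theorem inp_mem {p : ℕ} [Fact p.Prime] {m : ℕ} {Q I : Type} (X : (Q → Bool) → I → Bool)
    (hX : IsProj X) (e : Q → Fin m) (i : I) :
    (fun y : Fin m → Bool => (bK (X (fun q => y (e q)) i) : ZMod p)) ∈ LD (ZMod p) (Fin m) 1 := by
  rcases hX i with ⟨b, hb⟩ | ⟨q, s, hq⟩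
  · have : (fun y : Fin m → Bool => (bK (X (fun q => y (e q)) i) : ZMod p)) =
        fun _ => bK b := by
      funext y; rw [hb]
    rw [this]
    exact const_mem _ _
  · have : (fun y : Fin m → Bool => (bK (X (fun q => y (e q)) i) : ZMod p)) =
        fun y => (fun c => (bK (xor c s) : ZMod p)) (y (e q)) := by
      funext y; rw [hq]
    rw [this]
    exact bit_mem (fun c => (bK (xor c s) : ZMod p)) (e q)

theorem main_bp (hPP : S_PP) (hSMO : S_SMO) (hBIN : S_BIN) (hM1 : S_M1) (hM2 : S_M2)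
    (hAN : S_AN) (hEMB : S_EMB) (hPAR : S_PAR) (p : ℕ) (hp : p.Prime) (k h : ℕ) (hk : 3 ≤ k)
    (b γ : ℝ) (hb : 0 ≤ b) (hbh : h * b < (k : ℝ) / (k + 1)) (hγ : 0 < γ) :
    ∃ n₀ : ℕ, ∀ n : ℕ, n₀ ≤ n → ∃ (Ω : Type) (_ : Fintype Ω) (_ : Nonempty Ω)
      (F : Ω → Clause n k → Bool), ∀ (s : ℕ) (C : Circuit (Clause n k) Unit),
        (s : ℝ) ≤ 2 ^ ((n : ℝ) ^ b) → Small (h + 1) s C →
        ((univ.filter fun ω => (Accepts p C (F ω) ↔ Satisfiable (F ω))).card : ℝ) ≤
          (1 / 2 + γ) * Fintype.card Ω := by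
  have : Fact p.Prime := ⟨hp⟩
  set ε : ℝ := γ / 8 with hεdef
  have hε : 0 < ε := by positivity
  obtain ⟨ℓ₁, hℓ₁⟩ : ∃ ℓ₁ : ℕ, (1 / 2 : ℝ) ^ ℓ₁ < ε := exists_pow_lt_of_lt_one hε (by norm_num)
  set ℓ₀ : ℕ := ℓ₁ + 1 with hℓ₀
  have hℓ₀ε : 1 / (2 : ℝ) ^ ℓ₀ ≤ ε := by
    have h1 : (1 / 2 : ℝ) ^ ℓ₀ ≤ (1 / 2) ^ ℓ₁ :=
      pow_le_pow_of_le_one (by norm_num) (by norm_num) (Nat.le_succ _)
    rw [one_div, ← inv_pow, ← one_div]
    linarith
  have hp1 : (1 : ℝ) ≤ p := by exact_mod_cast hp.one_lt.le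
  have hp2 : (2 : ℝ) ≤ p := by exact_mod_cast hp.two_le
  set A₀ : ℝ := ℓ₀ * p ^ (h + 1) with hA₀
  set A : ℝ := 4 * A₀ / (3 * ε ^ 3) + (1 + ℓ₀) with hA
  have hA₀0 : 0 ≤ A₀ := by positivity
  have hApos : 0 < A := by positivity
  obtain ⟨r₁, hr₁⟩ := hAN k hk ε hε
  obtain ⟨r₂, hr₂⟩ := exists_nat_ge (2 * max 2 (8 / ε) / ε ^ 2)
  obtain ⟨n₀, hn₀⟩ := hPAR k h b A hk hb hbh hApos (max r₁ (max r₂ 1))
  refine ⟨n₀, fun n hn => ?_⟩
  obtain ⟨r, T, hr, hT, hTpos, hvar, hbig⟩ := hn₀ n hn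
  have hr1 : r₁ ≤ r := (le_max_left _ _).trans hr
  have hr2 : r₂ ≤ r := (le_max_left _ _).trans ((le_max_right _ _).trans hr)
  have hrpos : 0 < r := (le_max_right _ _).trans ((le_max_right _ _).trans hr)
  set M : ℕ := r * T with hM
  have hMpos : 0 < M := Nat.mul_pos hrpos hTpos
  have hMR : (0 : ℝ) < (M : ℝ) := by exact_mod_cast hMpos
  have hMr : (r : ℝ) ≤ M := by
    have : r ≤ M := Nat.le_mul_of_pos_right _ hTpos
    exact_mod_cast this
  set W : ℝ := ε ^ 2 * M / 2 with hW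
  have hWbig : max 2 (8 / ε) ≤ W := by
    have h1 : 2 * max 2 (8 / ε) / ε ^ 2 ≤ M := by
      refine hr₂.trans (le_trans ?_ hMr)
      exact_mod_cast hr2
    rw [div_le_iff₀ (by positivity)] at h1
    rw [hW]
    linarith
  obtain ⟨j, hj1, hj2⟩ := exists_coins hWbig
  set m : ℕ := 2 * j + 1 with hm
  have hmpos : 0 < m := Nat.succ_pos _
  have hmR : (0 : ℝ) < (m : ℝ) := by exact_mod_cast hmpos
  have hW2 : 2 ≤ W := (le_max_left _ _).trans hWbig
  have hW8 : 8 / ε ≤ W := (le_max_right _ _).trans hWbig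
  have hsq : 0 < √(m : ℝ) := Real.sqrt_pos.2 hmR
  have hsqW : √(m : ℝ) ≤ W := by
    rw [show W = √(W ^ 2) from (Real.sqrt_sq (by linarith)).symm]
    exact Real.sqrt_le_sqrt hj1
  set δ : ℝ := 1 / (ε * (M : ℕ)) with hδ
  have hδ0 : 0 < δ := by positivity
  have hδW : δ * W = ε / 2 := by
    rw [hδ, hW]; field_simp
  -- the family of formulas
  choose X hXproj hXsat using hEMB n T (2 ^ r) k M hk (by positivity) hvar
  set B : Type := Fin M → Sc T (2 ^ r) k m with hB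
  set F : B × (Fin m → Bool) → Clause n k → Bool := fun ω =>
    X (fun i => (ω.1 i).1) (fun q => ω.2 ((ω.1 q.1).2 q.2)) with hF
  have hFsat : ∀ ω : B × (Fin m → Bool), Satisfiable (F ω) ↔ ∃ x, Ok ω.2 ω.1 x := by
    intro ω
    rw [hF]
    exact hXsat _ _
  have : Nonempty B := by
    have : Nonempty (Fin m) := ⟨⟨0, hmpos⟩⟩
    have : Nonempty (Fin T) := ⟨⟨0, hTpos⟩⟩
    have : Nonempty (Fin (2 ^ r)) := ⟨⟨0, by positivity⟩⟩
    exact ⟨fun _ => (fun _ => (Classical.arbitrary _, fun _ _ => Classical.arbitrary _),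
      fun _ => Classical.arbitrary _)⟩
  refine ⟨B × (Fin m → Bool), inferInstance, inferInstance, F, ?_⟩
  intro s C hs hC
  by_contra hcon
  push Not at hcon
  have hBpos : (0 : ℝ) < Fintype.card B := by exact_mod_cast Fintype.card_pos
  have hUcard : (Fintype.card (Fin m → Bool) : ℝ) = 2 ^ m := by
    rw [Fintype.card_fun, Fintype.card_bool, Fintype.card_fin]; push_cast; rfl
  have hcardΩ : (Fintype.card (B × (Fin m → Bool)) : ℝ) = Fintype.card B * 2 ^ m := by
    rw [Fintype.card_prod, Nat.cast_mul, hUcard]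
  rw [hcardΩ] at hcon
  -- nearly balanced coins
  set t : ℕ := ⌈δ * m⌉₊ + 1 with ht
  have htle : (t : ℝ) ≤ δ * m + 2 := by
    have := Nat.ceil_lt_add_one (show 0 ≤ δ * (m : ℝ) by positivity)
    rw [ht]; push_cast; linarith
  have htge : δ * m ≤ t := by
    have := Nat.le_ceil (δ * (m : ℝ))
    rw [ht]; push_cast; linarith
  set bal : Finset (Fin m → Bool) := univ.filter fun u => m < 2 * wt u + t ∧ 2 * wt u < m + t
    with hbal
  have hbalcard : (bal.card : ℝ) ≤ ε * 2 ^ m := by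
    have h1 := hBIN.2 j t
    have h2 := hBIN.1 j
    have h3 : (bal.card : ℝ) ≤ t * ((2 * j + 1).choose j : ℝ) := by exact_mod_cast h1
    have h4 : (2 : ℝ) * j + 1 = (m : ℝ) := by rw [hm]; push_cast; ring
    rw [h4] at h2
    have h5 : ((2 * j + 1).choose j : ℝ) ≤ 2 ^ m / √(m : ℝ) := by
      rw [le_div_iff₀ hsq]; exact h2
    have h6 : (t : ℝ) ≤ ε * √(m : ℝ) := by
      have h7 : δ * m = δ * √(m : ℝ) * √(m : ℝ) := by
        rw [mul_assoc, Real.mul_self_sqrt hmR.le]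
      have h8 : δ * √(m : ℝ) ≤ ε / 2 := by
        rw [← hδW]
        exact mul_le_mul_of_nonneg_left hsqW hδ0.le
      have h9 : (2 : ℝ) ≤ ε / 2 * √(m : ℝ) := by
        have : 8 / ε / 2 ≤ √(m : ℝ) := by linarith
        calc (2 : ℝ) = ε / 2 * (8 / ε / 2) := by field_simp; norm_num
          _ ≤ ε / 2 * √(m : ℝ) := mul_le_mul_of_nonneg_left this (by positivity)
      have h10 : δ * √(m : ℝ) * √(m : ℝ) ≤ ε / 2 * √(m : ℝ) :=
        mul_le_mul_of_nonneg_right h8 hsq.le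
      linarith
    calc (bal.card : ℝ) ≤ t * ((2 * j + 1).choose j : ℝ) := h3
      _ ≤ (ε * √(m : ℝ)) * (2 ^ m / √(m : ℝ)) :=
          mul_le_mul h6 h5 (Nat.cast_nonneg _) (by positivity)
      _ = ε * 2 ^ m := by field_simp
  -- mismatch of satisfiability and majority
  have hmis : ∀ u : Fin m → Bool, u ∉ bal →
      ((univ.filter fun b : B => ¬ (Satisfiable (F (b, u)) ↔ maj u = true)).card : ℝ) ≤
        2 * ε * Fintype.card B := by
    intro u hu
    have hu' : m + t ≤ 2 * wt u ∨ 2 * wt u + t ≤ m := by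
      by_contra hcon2
      push Not at hcon2
      exact hu (mem_filter.2 ⟨mem_univ _, by omega, by omega⟩)
    rcases hu' with h1 | h1
    · have hmaj : maj u = true := by
        unfold maj
        rw [decide_eq_true_eq]
        have : 1 ≤ t := by rw [ht]; omega
        omega
      have h2 : (1 + 1 / (ε * (r * T : ℕ))) * m ≤ 2 * wt u := by
        have h3 : ((m + t : ℕ) : ℝ) ≤ ((2 * wt u : ℕ) : ℝ) := by exact_mod_cast h1
        push_cast at h3
        have h4 : (1 + δ) * (m : ℝ) ≤ 2 * wt u := by linarith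
        exact h4
      have h3 := heavy hM2 (k := k) hTpos hrpos hε (hr₁ r hr1 T hT).2 hmpos u h2
      refine le_trans ?_ h3
      have h4 : (univ.filter fun b : B => ¬ (Satisfiable (F (b, u)) ↔ maj u = true)) =
          univ.filter fun b : Fin (r * T) → Sc T (2 ^ r) k m => ¬ ∃ x, Ok u b x := by
        ext b
        simp only [mem_filter, mem_univ, true_and]
        rw [hFsat, hmaj]
        simp
      rw [h4]
    · have hmaj : ¬ (maj u = true) := by
        unfold maj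
        rw [decide_eq_true_eq]
        omega
      have h2 : 2 * (wt u : ℝ) ≤ (1 - 1 / (ε * (r * T : ℕ))) * m := by
        have h3 : ((2 * wt u + t : ℕ) : ℝ) ≤ ((m : ℕ) : ℝ) := by exact_mod_cast h1
        push_cast at h3
        have h4 : 2 * (wt u : ℝ) ≤ (1 - δ) * (m : ℝ) := by linarith
        exact h4
      have h3 := light hM1 (k := k) hTpos hrpos hε hmpos u h2
      have h4 : (univ.filter fun b : B => ¬ (Satisfiable (F (b, u)) ↔ maj u = true)) =
          univ.filter fun b : Fin (r * T) → Sc T (2 ^ r) k m => ∃ x, Ok u b x := by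
        ext b
        simp only [mem_filter, mem_univ, true_and]
        rw [hFsat]
        simp [hmaj]
      rw [h4]
      refine h3.trans ?_
      have : 0 ≤ ε * (Fintype.card B : ℝ) := by positivity
      linarith
  have hmistot : ((univ.filter fun ω : B × (Fin m → Bool) =>
      ¬ (Satisfiable (F ω) ↔ maj ω.2 = true)).card : ℝ) ≤ 3 * ε * (Fintype.card B * 2 ^ m) := by
    have e1 : ((univ.filter fun ω : B × (Fin m → Bool) =>
        ¬ (Satisfiable (F ω) ↔ maj ω.2 = true)).card : ℝ) =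
        ∑ u : Fin m → Bool, ((univ.filter fun b : B =>
          ¬ (Satisfiable (F (b, u)) ↔ maj u = true)).card : ℝ) := by
      have : (univ.filter fun ω : B × (Fin m → Bool) =>
          ¬ (Satisfiable (F ω) ↔ maj ω.2 = true)).card =
          ∑ u : Fin m → Bool, (univ.filter fun b : B =>
            ¬ (Satisfiable (F (b, u)) ↔ maj u = true)).card := by
        simp only [Finset.card_filter]
        rw [Fintype.sum_prod_type_right]
      rw [this]
      push_cast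
      rfl
    rw [e1]
    have e2 : ∑ u : Fin m → Bool, ((univ.filter fun b : B =>
          ¬ (Satisfiable (F (b, u)) ↔ maj u = true)).card : ℝ) ≤
        ∑ u : Fin m → Bool, (2 * ε * Fintype.card B +
          if u ∈ bal then (Fintype.card B : ℝ) else 0) := by
      refine sum_le_sum fun u _ => ?_
      by_cases hu : u ∈ bal
      · rw [if_pos hu]
        have h1 : ((univ.filter fun b : B =>
            ¬ (Satisfiable (F (b, u)) ↔ maj u = true)).card : ℝ) ≤ Fintype.card B := by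
          exact_mod_cast card_le_univ _
        have : 0 ≤ 2 * ε * (Fintype.card B : ℝ) := by positivity
        linarith
      · rw [if_neg hu, add_zero]
        exact hmis u hu
    refine e2.trans ?_
    rw [sum_add_distrib, sum_const, card_univ, nsmul_eq_mul, hUcard, ← sum_filter, sum_const,
      nsmul_eq_mul]
    have e3 : (univ.filter fun u => u ∈ bal) = bal := by
      ext u; simp
    rw [e3]
    have e4 : (bal.card : ℝ) * Fintype.card B ≤ (ε * 2 ^ m) * Fintype.card B :=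
      mul_le_mul_of_nonneg_right hbalcard hBpos.le
    linarith
  -- agreement of the circuit with majority
  have hagree : (1 / 2 + γ - 3 * ε) * (Fintype.card B * Fintype.card (Fin m → Bool)) ≤
      ((univ.filter fun ω : B × (Fin m → Bool) =>
        (Accepts p C (F (ω.1, ω.2)) ↔ maj ω.2 = true)).card : ℝ) := by
    rw [hUcard]
    have h1 : (univ.filter fun ω : B × (Fin m → Bool) => (Accepts p C (F ω) ↔ Satisfiable (F ω))) ⊆
        (univ.filter fun ω : B × (Fin m → Bool) => (Accepts p C (F (ω.1, ω.2)) ↔ maj ω.2 = true)) ∪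
        (univ.filter fun ω : B × (Fin m → Bool) => ¬ (Satisfiable (F ω) ↔ maj ω.2 = true)) := by
      intro ω hω
      rw [mem_filter] at hω
      rw [mem_union, mem_filter, mem_filter]
      by_cases h2 : (Satisfiable (F ω) ↔ maj ω.2 = true)
      · exact Or.inl ⟨mem_univ _, hω.2.trans h2⟩
      · exact Or.inr ⟨mem_univ _, h2⟩
    have h2 := (card_le_card h1).trans (card_union_le _ _)
    have h3 : ((univ.filter fun ω : B × (Fin m → Bool) =>
        (Accepts p C (F ω) ↔ Satisfiable (F ω))).card : ℝ) ≤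
        ((univ.filter fun ω : B × (Fin m → Bool) =>
          (Accepts p C (F (ω.1, ω.2)) ↔ maj ω.2 = true)).card : ℝ) +
        ((univ.filter fun ω : B × (Fin m → Bool) =>
          ¬ (Satisfiable (F ω) ↔ maj ω.2 = true)).card : ℝ) := by exact_mod_cast h2
    linarith
  obtain ⟨b₀, hb₀⟩ := exists_fst (B := B) (U := Fin m → Bool)
    (fun b' u => (Accepts p C (F (b', u)) ↔ maj u = true)) (1 / 2 + γ - 3 * ε) hagree
  rw [hUcard] at hb₀
  -- polynomial approximation
  set ℓ : ℕ := Nat.clog 2 s + ℓ₀ with hℓ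
  obtain ⟨Q, hQ, hQerr⟩ := hPP p C h s ℓ ℓ₀ (by omega) (by omega) hC
    (fun i y => X (fun i => (b₀ i).1) (fun q => y ((b₀ q.1).2 q.2)) i)
    (fun i => inp_mem (X (fun i => (b₀ i).1)) (hXproj _) (fun q => (b₀ q.1).2 q.2) i)
  replace hQerr : ((univ.filter fun y : Fin m → Bool =>
      ¬ (Q y = bK (decide (Accepts p C (F (b₀, y)))))).card : ℝ) ≤
        (s / (p : ℝ) ^ ℓ + 1 / (p : ℝ) ^ ℓ₀) * 2 ^ Fintype.card (Fin m) := hQerr
  have herr : (s / (p : ℝ) ^ ℓ + 1 / (p : ℝ) ^ ℓ₀) ≤ 2 * ε := by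
    have h1 : 1 / (p : ℝ) ^ ℓ₀ ≤ 1 / (2 : ℝ) ^ ℓ₀ :=
      one_div_le_one_div_of_le (by positivity) (pow_le_pow_left₀ (by norm_num) hp2 _)
    have h2 : (s : ℝ) ≤ 2 ^ Nat.clog 2 s := by
      exact_mod_cast Nat.le_pow_clog (by norm_num) s
    have h3 : (s : ℝ) / (p : ℝ) ^ ℓ ≤ 1 / (2 : ℝ) ^ ℓ₀ := by
      rw [div_le_div_iff₀ (by positivity) (by positivity)]
      calc (s : ℝ) * 2 ^ ℓ₀ ≤ 2 ^ Nat.clog 2 s * 2 ^ ℓ₀ :=
            mul_le_mul_of_nonneg_right h2 (by positivity)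
        _ = 2 ^ ℓ := (pow_add 2 (Nat.clog 2 s) ℓ₀).symm
        _ ≤ 1 * (p : ℝ) ^ ℓ := by
            rw [one_mul]
            exact pow_le_pow_left₀ (by norm_num) hp2 _
    linarith
  have hmcard : Fintype.card (Fin m) = m := Fintype.card_fin m
  rw [hmcard] at hQerr
  have hQagree : (1 / 2 + 3 * ε) * 2 ^ m ≤
      ((univ.filter fun u : Fin m → Bool => Q u = bK (maj u)).card : ℝ) := by
    have h1 : (univ.filter fun u : Fin m → Bool => (Accepts p C (F (b₀, u)) ↔ maj u = true)) ⊆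
        (univ.filter fun u : Fin m → Bool => Q u = bK (maj u)) ∪
        (univ.filter fun y : Fin m → Bool => ¬ (Q y = bK (decide (Accepts p C (F (b₀, y)))))) := by
      intro u hu
      rw [mem_filter] at hu
      rw [mem_union, mem_filter, mem_filter]
      by_cases h2 : Q u = bK (decide (Accepts p C (F (b₀, u))))
      · refine Or.inl ⟨mem_univ _, ?_⟩
        rw [h2]
        congr 1
        rw [Bool.eq_iff_iff, decide_eq_true_eq]
        exact hu.2
      · exact Or.inr ⟨mem_univ _, h2⟩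
    have h2 := (card_le_card h1).trans (card_union_le _ _)
    have h3 : ((univ.filter fun u : Fin m → Bool =>
        (Accepts p C (F (b₀, u)) ↔ maj u = true)).card : ℝ) ≤
        ((univ.filter fun u : Fin m → Bool => Q u = bK (maj u)).card : ℝ) +
        ((univ.filter fun y : Fin m → Bool =>
          ¬ (Q y = bK (decide (Accepts p C (F (b₀, y)))))).card : ℝ) := by exact_mod_cast h2
    have h4 : (s / (p : ℝ) ^ ℓ + 1 / (p : ℝ) ^ ℓ₀) * 2 ^ m ≤ 2 * ε * 2 ^ m :=
      mul_le_mul_of_nonneg_right herr (by positivity)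
    have h5 : γ = 8 * ε := by rw [hεdef]; ring
    rw [h5] at hb₀
    linarith
  set D : ℕ := ℓ₀ * (p - 1) * (ℓ * (p - 1)) ^ h with hD
  have hsmo : (univ.filter fun u : Fin m → Bool => Q u = bK (maj u)).card ≤
      2 ^ (2 * j) + D * (2 * j + 1).choose j := by
    refine le_trans (card_le_card ?_) (hSMO (K := ZMod p) j D Q hQ)
    intro u hu
    exact (@Finset.mem_filter _ _ (fun a => propDecidable _) _ _).2
      ⟨mem_univ _, (mem_filter.1 hu).2⟩
  have hsmoR : ((univ.filter fun u : Fin m → Bool => Q u = bK (maj u)).card : ℝ) ≤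
      2 ^ m / 2 + D * (2 ^ m / √(m : ℝ)) := by
    have h1 : ((univ.filter fun u : Fin m → Bool => Q u = bK (maj u)).card : ℝ) ≤
        2 ^ (2 * j) + D * ((2 * j + 1).choose j : ℝ) := by exact_mod_cast hsmo
    have h2 := hBIN.1 j
    have h4 : (2 : ℝ) * j + 1 = (m : ℝ) := by rw [hm]; push_cast; ring
    rw [h4] at h2
    have h5 : ((2 * j + 1).choose j : ℝ) ≤ 2 ^ m / √(m : ℝ) := by
      rw [le_div_iff₀ hsq]; exact h2
    have h6 : (2 : ℝ) ^ (2 * j) = 2 ^ m / 2 := by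
      rw [hm, pow_succ]; ring
    rw [h6] at h1
    have h7 : (D : ℝ) * ((2 * j + 1).choose j : ℝ) ≤ D * (2 ^ m / √(m : ℝ)) :=
      mul_le_mul_of_nonneg_left h5 (Nat.cast_nonneg _)
    linarith
  have hDbig : 3 * ε * √(m : ℝ) ≤ D := by
    have h1 : (1 / 2 + 3 * ε) * 2 ^ m ≤ 2 ^ m / 2 + D * (2 ^ m / √(m : ℝ)) :=
      hQagree.trans hsmoR
    have h2 : 3 * ε * 2 ^ m ≤ D * (2 ^ m / √(m : ℝ)) := by linarith
    have h3 : (D : ℝ) * (2 ^ m / √(m : ℝ)) = (D / √(m : ℝ)) * 2 ^ m := by ring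
    rw [h3] at h2
    have h4 := le_of_mul_le_mul_right h2 (by positivity)
    rwa [le_div_iff₀ hsq] at h4
  -- the degree is small
  have hDsmall : (D : ℝ) ≤ A₀ * ((n : ℝ) ^ b + (1 + ℓ₀)) ^ h := by
    have hp' : ((p - 1 : ℕ) : ℝ) ≤ p := by
      exact_mod_cast Nat.sub_le p 1
    have hℓR : (ℓ : ℝ) ≤ (n : ℝ) ^ b + (1 + ℓ₀) := by
      have h1 : (Nat.clog 2 s : ℝ) ≤ (n : ℝ) ^ b + 1 := by
        rcases Nat.lt_or_ge 1 s with hs1 | hs1
        · have h2 : 2 ^ (Nat.clog 2 s - 1) < s := Nat.pow_pred_clog_lt_self (by norm_num) hs1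
          have h3 : (2 : ℝ) ^ ((Nat.clog 2 s - 1 : ℕ) : ℝ) < 2 ^ ((n : ℝ) ^ b) := by
            rw [Real.rpow_natCast]
            refine lt_of_lt_of_le ?_ hs
            exact_mod_cast h2
          have h4 := (Real.rpow_lt_rpow_left_iff (by norm_num : (1 : ℝ) < 2)).1 h3
          have h5 : 1 ≤ Nat.clog 2 s := Nat.clog_pos (by norm_num) hs1
          rw [Nat.cast_sub h5] at h4
          push_cast at h4
          linarith
        · have h2 : Nat.clog 2 s = 0 := Nat.clog_of_right_le_one hs1 2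
          rw [h2]
          have : 0 ≤ (n : ℝ) ^ b := by positivity
          push_cast
          linarith
      rw [hℓ]
      push_cast
      linarith
    rw [hD, hA₀]
    push_cast
    calc (ℓ₀ : ℝ) * ((p - 1 : ℕ) : ℝ) * ((ℓ : ℝ) * ((p - 1 : ℕ) : ℝ)) ^ h
        ≤ ℓ₀ * p * (((n : ℝ) ^ b + (1 + ℓ₀)) * p) ^ h := by
          apply mul_le_mul
          · exact mul_le_mul_of_nonneg_left hp' (Nat.cast_nonneg _)
          · apply pow_le_pow_left₀ (by positivity)
            exact mul_le_mul hℓR hp' (Nat.cast_nonneg _) (by positivity)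
          · positivity
          · positivity
      _ = ℓ₀ * p ^ (h + 1) * ((n : ℝ) ^ b + (1 + ℓ₀)) ^ h := by
          rw [mul_pow]; ring
  -- contradiction
  have h1 : 3 * ε * (W / 2) ≤ A₀ * ((n : ℝ) ^ b + (1 + ℓ₀)) ^ h :=
    (mul_le_mul_of_nonneg_left hj2 (by positivity)).trans (hDbig.trans hDsmall)
  have h2 : (M : ℝ) ≤ 4 * A₀ / (3 * ε ^ 3) * ((n : ℝ) ^ b + (1 + ℓ₀)) ^ h := by
    have h3 : 3 * ε * (W / 2) = 3 * ε ^ 3 / 4 * M := by
      rw [hW]; ring
    rw [h3] at h1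
    have h4 : (M : ℝ) = 4 / (3 * ε ^ 3) * (3 * ε ^ 3 / 4 * M) := by
      field_simp
    rw [h4]
    calc 4 / (3 * ε ^ 3) * (3 * ε ^ 3 / 4 * (M : ℝ))
        ≤ 4 / (3 * ε ^ 3) * (A₀ * ((n : ℝ) ^ b + (1 + ℓ₀)) ^ h) :=
          mul_le_mul_of_nonneg_left h1 (by positivity)
      _ = _ := by ring
  have hnb : 0 ≤ (n : ℝ) ^ b := by positivity
  have h3 : ((n : ℝ) ^ b + (1 + ℓ₀)) ^ h ≤ ((n : ℝ) ^ b + A) ^ h := by
    apply pow_le_pow_left₀ (by positivity)
    have : 0 ≤ 4 * A₀ / (3 * ε ^ 3) := by positivity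
    rw [hA]; linarith
  have h4 : 0 < ((n : ℝ) ^ b + A) ^ h := by positivity
  have h5 : 4 * A₀ / (3 * ε ^ 3) * ((n : ℝ) ^ b + (1 + ℓ₀)) ^ h <
      A * ((n : ℝ) ^ b + A) ^ h := by
    calc 4 * A₀ / (3 * ε ^ 3) * ((n : ℝ) ^ b + (1 + ℓ₀)) ^ h
        ≤ 4 * A₀ / (3 * ε ^ 3) * ((n : ℝ) ^ b + A) ^ h :=
          mul_le_mul_of_nonneg_left h3 (by positivity)
      _ < A * ((n : ℝ) ^ b + A) ^ h := by
          apply mul_lt_mul_of_pos_right _ h4
          rw [hA]
          have : (0 : ℝ) ≤ (ℓ₀ : ℝ) := Nat.cast_nonneg _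
          linarith
  have h6 : A * ((n : ℝ) ^ b + A) ^ h ≤ (M : ℕ) := hbig
  linarith

end Pool.Agent.W951.BP
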