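import Pool.Agent.W951.BP.Defs
import Pool.Agent.H820R3.AC.Core
import Pool.Agent.H596R2.D3.Emb

/-!
# Statements of the parts of the lower bound for `k`-SAT against circuits with modular gates
-/

namespace Pool.Agent.W951.BP

open H746R3.Inv Finset Classical

/-- Structures: for every scope `i : Fin M` and every digit `l : Fin k` two positions of a message
and a table, and for every scope and every `k`-tuple of digits the number of a coin. -/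
abbrev Sc (T v k m : ℕ) : Type :=
  (Fin k → (Fin T × Fin T) × (Fin v → Fin v → Fin v)) × ((Fin k → Fin v) → Fin m)

/-- the digits of a scope -/
def digit {T v k : ℕ} (β : Fin k → (Fin T × Fin T) × (Fin v → Fin v → Fin v)) (x : Fin T → Fin v) :
    Fin k → Fin v :=
  fun l => (β l).2 (x (β l).1.1) (x (β l).1.2)

/-- the message `x` is compatible with the coins `u` -/
def Ok {T v k m M : ℕ} (u : Fin m → Bool) (b : Fin M → Sc T v k m) (x : Fin T → Fin v) : Prop :=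
  ∀ i, u ((b i).2 (digit (b i).1 x)) = true

/-- the number of coins that show heads -/
def wt {m : ℕ} (u : Fin m → Bool) : ℕ := (univ.filter fun j => u j = true).card

/-- the majority function -/
def maj {m : ℕ} (u : Fin m → Bool) : Bool := decide (m < 2 * wt u)

/-- the probability that a digit is equal for two messages that agree on `s` of `T` positions -/
noncomputable def qq (T v s : ℕ) : ℝ :=
  ((s : ℝ) / T) ^ 2 + (1 - ((s : ℝ) / T) ^ 2) / v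

/-- the probability that two random messages agree on `s` of `T` positions -/
noncomputable def pr (T v s : ℕ) : ℝ :=
  (T.choose s : ℝ) * ((v : ℝ) - 1) ^ (T - s) / (v : ℝ) ^ T

/-- **PP.** Approximation of circuits with a sharp degree: constant error at the output gate only. -/
def S_PP : Prop :=
  ∀ (p : ℕ) [Fact p.Prime] {V I : Type} [Fintype V] [DecidableEq V] (C : Circuit I Unit)
    (h s ℓ ℓ₀ : ℕ), 1 ≤ ℓ → 1 ≤ ℓ₀ → Small (h + 1) s C →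
    ∀ (inp : I → (V → Bool) → Bool),
    (∀ i, (fun y => (bK (inp i y) : ZMod p)) ∈ LD (ZMod p) V 1) →
    ∃ Q ∈ LD (ZMod p) V (ℓ₀ * (p - 1) * (ℓ * (p - 1)) ^ h),
      ((univ.filter fun y : V → Bool =>
        ¬ (Q y = bK (decide (Accepts p C fun i => inp i y)))).card : ℝ) ≤
        (s / (p : ℝ) ^ ℓ + 1 / (p : ℝ) ^ ℓ₀) * 2 ^ Fintype.card V

/-- **SMO.** Smolensky's bound for the agreement of polynomials with majority, with a sharp
constant. -/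
def S_SMO : Prop :=
  ∀ {K : Type} [Field K] (j D : ℕ), ∀ Q ∈ LD K (Fin (2 * j + 1)) D,
    (univ.filter fun u : Fin (2 * j + 1) → Bool => Q u = bK (maj u)).card ≤
      2 ^ (2 * j) + D * (2 * j + 1).choose j

/-- **BIN.** The middle binomial coefficient, and the number of nearly balanced words. -/
def S_BIN : Prop :=
  (∀ j : ℕ, ((2 * j + 1).choose j : ℝ) * √(2 * j + 1) ≤ 2 ^ (2 * j + 1)) ∧
  ∀ j t : ℕ, (univ.filter fun u : Fin (2 * j + 1) → Bool =>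
    2 * j + 1 < 2 * wt u + t ∧ 2 * wt u < 2 * j + 1 + t).card ≤ t * (2 * j + 1).choose j

/-- **M1.** First moment. -/
def S_M1 : Prop :=
  ∀ (T v k m M : ℕ), 0 < T → 0 < v → 0 < m → ∀ u : Fin m → Bool,
    ((univ.filter fun b : Fin M → Sc T v k m => ∃ x, Ok u b x).card : ℝ) ≤
      (v : ℝ) ^ T * ((wt u : ℝ) / m) ^ M * Fintype.card (Fin M → Sc T v k m)

/-- **M2.** Second moment. -/
def S_M2 : Prop :=
  ∀ (T v k m M : ℕ), 0 < T → 0 < v → 0 < m → ∀ u : Fin m → Bool, 0 < wt u →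
    ((univ.filter fun b : Fin M → Sc T v k m => ¬ ∃ x, Ok u b x).card : ℝ) ≤
      ((∑ s ∈ range (T + 1), pr T v s * (1 + ((m : ℝ) / wt u - 1) * qq T v s ^ k) ^ M) - 1) *
        Fintype.card (Fin M → Sc T v k m)

/-- **AN.** The analytic estimate for the second moment. -/
def S_AN : Prop :=
  ∀ k : ℕ, 3 ≤ k → ∀ ε : ℝ, 0 < ε → ∃ r₀ : ℕ, ∀ r : ℕ, r₀ ≤ r → ∀ T : ℕ,
    T = 2 ^ (k * r) / r ^ 2 →
      0 < T ∧ ∑ s ∈ range T, pr T (2 ^ r) s * (1 + qq T (2 ^ r) s ^ k) ^ (r * T) ≤ 1 + ε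

/-- the terms of the sum in `S_AN` -/
noncomputable def tm (k r T s : ℕ) : ℝ := pr T (2 ^ r) s * (1 + qq T (2 ^ r) s ^ k) ^ (r * T)

/-- **AN1.** The typical range. -/
def S_AN1 : Prop :=
  ∀ k : ℕ, 1 ≤ k → ∀ ε : ℝ, 0 < ε → ∃ r₀ : ℕ, ∀ r : ℕ, r₀ ≤ r → ∀ T : ℕ,
    T = 2 ^ (k * r) / r ^ 2 → 0 < T ∧
      ∑ s ∈ (range T).filter (fun s : ℕ => ((s : ℝ) / T) ^ 2 * 2 ^ r ≤ 1), tm k r T s ≤ 1 + ε

/-- **AN2.** The range up to `3 / 10`. -/
def S_AN2 : Prop :=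
  ∀ k : ℕ, 3 ≤ k → ∀ ε : ℝ, 0 < ε → ∃ r₀ : ℕ, ∀ r : ℕ, r₀ ≤ r → ∀ T : ℕ,
    T = 2 ^ (k * r) / r ^ 2 →
      ∑ s ∈ (range T).filter (fun s : ℕ => 1 < ((s : ℝ) / T) ^ 2 * 2 ^ r ∧ (s : ℝ) / T ≤ 3 / 10),
        tm k r T s ≤ ε

/-- **AN3.** The range from `3 / 10` to `1 - ζ`. -/
def S_AN3 : Prop :=
  ∀ k : ℕ, 3 ≤ k → ∀ ζ ε : ℝ, 0 < ζ → 0 < ε → ∃ r₀ : ℕ, ∀ r : ℕ, r₀ ≤ r → ∀ T : ℕ,
    T = 2 ^ (k * r) / r ^ 2 →
      ∑ s ∈ (range T).filter (fun s : ℕ => 3 / 10 < (s : ℝ) / T ∧ (s : ℝ) / T ≤ 1 - ζ),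
        tm k r T s ≤ ε

/-- **AN4.** The range above `1 - ζ`. -/
def S_AN4 : Prop :=
  ∀ k : ℕ, 3 ≤ k → ∃ ζ : ℝ, 0 < ζ ∧ ∀ ε : ℝ, 0 < ε → ∃ r₀ : ℕ, ∀ r : ℕ, r₀ ≤ r → ∀ T : ℕ,
    T = 2 ^ (k * r) / r ^ 2 →
      ∑ s ∈ (range T).filter (fun s : ℕ => 1 - ζ < (s : ℝ) / T), tm k r T s ≤ ε

/-- **EMB.** Encoding by `k`-CNF formulas with `n` variables. -/
def S_EMB : Prop :=
  ∀ (n T v k M : ℕ), 3 ≤ k → 0 < v → T * v + (T * (v + 1) + M * k * v) ≤ n →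
    ∀ β : Fin M → Fin k → (Fin T × Fin T) × (Fin v → Fin v → Fin v),
    ∃ X : (Fin M × (Fin k → Fin v) → Bool) → Pool.Agent.H596R2.D3.Clause n k → Bool,
      Pool.Agent.H596R2.D3.IsProj X ∧ ∀ w, Pool.Agent.H596R2.D3.Satisfiable (X w) ↔
        ∃ x : Fin T → Fin v, ∀ i, w (i, digit (β i) x) = true

/-- **PAR.** The choice of the parameters: for all large `n` there is `r` as large as we like such
that the formulas have at most `n` variables, while the number `M = r T` of scopes is larger than any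
given multiple of `(log₂ s)^(h)` for `s ≤ 2 ^ (n ^ b)` if `h b < k / (k + 1)`. -/
def S_PAR : Prop :=
  ∀ (k h : ℕ) (b A : ℝ), 3 ≤ k → 0 ≤ b → h * b < (k : ℝ) / (k + 1) → 0 < A → ∀ r₀ : ℕ,
    ∃ n₀ : ℕ, ∀ n : ℕ, n₀ ≤ n → ∃ r T : ℕ, r₀ ≤ r ∧ T = 2 ^ (k * r) / r ^ 2 ∧ 0 < T ∧
      T * 2 ^ r + (T * (2 ^ r + 1) + (r * T) * k * 2 ^ r) ≤ n ∧
      A * ((n : ℝ) ^ b + A) ^ h ≤ (r * T : ℕ)

end Pool.Agent.W951.BP
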